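import Mathlib

set_option autoImplicit false

namespace Pool.Agent.Results.MP_4d2e3d_co.Counter

open Module Submodule

variable (F K : Type) [Field F] [Field K] [Algebra F K] {n : ℕ}

def IsQMatroid (ρ : Submodule F (Fin n → F) → ℕ) : Prop :=
  (∀ V, ρ V ≤ finrank F V) ∧ (∀ U V, U ≤ V → ρ U ≤ ρ V) ∧
    ∀ U V, ρ (U ⊔ V) + ρ (U ⊓ V) ≤ ρ U + ρ V

/-- the projectivization matroid is the column matroid of a matrix over `K` -/
def ProjRep (ρ : Submodule F (Fin n → F) → ℕ) : Prop :=
  ∃ (k N : ℕ) (G : Matrix (Fin k) (Fin N) K) (e : Projectivization F (Fin n → F) ≃ Fin N),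
    ∀ A : Set (Projectivization F (Fin n → F)),
      ρ (⨆ p ∈ A, p.submodule) = finrank K (span K ((fun p => G.col (e p)) '' A))

/-- the `q`-matroid is isomorphic to the `q`-matroid of a matrix over `K` -/
def QRep (ρ : Submodule F (Fin n → F) → ℕ) : Prop :=
  ∃ (k N : ℕ) (G : Matrix (Fin k) (Fin N) K) (φ : (Fin n → F) ≃ₗ[F] (Fin N → F)),
    ∀ V : Submodule F (Fin n → F),
      ρ V = finrank K (span K ((fun v => G.mulVec fun i => algebraMap F K (φ v i)) '' V))

theorem result : ∀ (F K : Type) [Field F] [Field K] [Algebra F K] [Finite K],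
    ∃ (n : ℕ) (ρ : Submodule F (Fin n → F) → ℕ),
      IsQMatroid F ρ ∧ ProjRep F K ρ ∧ ¬ QRep F K ρ := by
  classical
  intro F K _ _ _ _
  have : Finite F := Finite.of_injective _ (algebraMap F K).injective
  refine ⟨finrank F K + 1, fun V => if V = ⊥ then 0 else 1, ⟨fun V => ?_, fun U V h => ?_,
    fun U V => ?_⟩, ?_, ?_⟩
  · dsimp only
    split_ifs with h
    · exact Nat.zero_le _
    · exact Nat.pos_of_ne_zero fun h' => h (Submodule.finrank_eq_zero.1 h')
  · by_cases hV : V = ⊥
    · simp [hV, le_bot_iff.1 (hV ▸ h)]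
    · simp only [hV]; split_ifs <;> simp_all
  · by_cases hU : U = ⊥
    · simp [hU]
    · by_cases hV : V = ⊥
      · simp [hV]
      · simp only [hU, hV]; split_ifs <;> simp_all
  · have : Finite (Projectivization F (Fin (finrank F K + 1) → F)) := Quotient.finite _
    obtain ⟨N, ⟨e⟩⟩ := Finite.exists_equiv_fin (Projectivization F (Fin (finrank F K + 1) → F))
    refine ⟨1, N, Matrix.of fun _ _ => 1, e, fun A => ?_⟩
    rcases A.eq_empty_or_nonempty with rfl | ⟨p, hp⟩
    · rw [Set.image_empty, span_empty]; simp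
    · have h1 : ⨆ p ∈ A, p.submodule ≠ ⊥ := fun h => by
        have := p.finrank_submodule
        rw [show p.submodule = ⊥ from le_bot_iff.1 (h ▸ le_biSup (fun p => p.submodule) hp)] at this
        simp at this
      have h2 : (fun p => (Matrix.col (Matrix.of fun (_ : Fin 1) (_ : Fin N) => (1 : K)) (e p))) '' A =
          {fun _ => 1} := Set.Nonempty.image_const ⟨p, hp⟩ (fun _ : Fin 1 => (1 : K))
      rw [h2, finrank_span_singleton (by simp [funext_iff])]; exact if_neg h1
  · rintro ⟨k, N, G, φ, h⟩
    let L : (Fin (finrank F K + 1) → F) →ₗ[F] (Fin k → K) :=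
      (G.mulVecLin.restrictScalars F).comp
        ((LinearMap.compLeft (Algebra.linearMap F K) _).comp φ.toLinearMap)
    have hL : ∀ v, (G.mulVec fun i => algebraMap F K (φ v i)) = L v := fun _ => rfl
    replace h : ∀ V : Submodule F (Fin (finrank F K + 1) → F), (if V = ⊥ then 0 else 1) = finrank K (span K (L '' V)) := h
    have hi : Function.Injective L := (injective_iff_map_eq_zero L).2 fun v hv => by
      by_contra h0
      have := h (span F {v})
      rw [if_neg (by simpa using h0), span_eq_bot.2, finrank_bot] at this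
      · simp at this
      · rintro _ ⟨w, hw, rfl⟩
        obtain ⟨a, rfl⟩ := mem_span_singleton.1 hw
        show L _ = 0
        rw [map_smul, hv, smul_zero]
    have h1 := h ⊤
    rw [if_neg top_ne_bot] at h1
    set W := span K (L '' (⊤ : Submodule F (Fin (finrank F K + 1) → F)))
    have h2 := LinearMap.finrank_le_finrank_of_injective
      (f := L.codRestrict (W.restrictScalars F) fun v => subset_span ⟨v, trivial, rfl⟩)
      fun a b e => hi (congrArg Subtype.val e)
    have h3 : finrank F (W.restrictScalars F) = finrank F K * finrank K W :=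
      (finrank_mul_finrank F K W).symm
    rw [h3, ← h1] at h2
    simp at h2

end Pool.Agent.Results.MP_4d2e3d_co.Counter
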